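import Pool.Agent.H73.CBD.Stmts

/-!
Row FEQ: the functional equation of the sum.
-/

set_option autoImplicit false

namespace Pool.CBD

theorem FEQ_ne (hALG : ALGStmt) (z : V) (hz : z ≠ 0) (k : ℕ) : f^[k] z ≠ 0 := by
  obtain ⟨-, -, -, -, -, -, -, hfne, -⟩ := hALG
  induction k with
  | zero => simpa using hz
  | succ k ih =>
    rw [Function.iterate_succ_apply']
    exact hfne _ ih

theorem FEQ_hom (hALH : ALHStmt) (c : ℂ) (z : V) (k : ℕ) :
    f^[k] (c • z) = c ^ (2 ^ k) • f^[k] z := by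
  obtain ⟨hfs, -⟩ := hALH
  induction k with
  | zero => simp
  | succ k ih =>
    rw [Function.iterate_succ_apply', Function.iterate_succ_apply', ih, hfs, ← pow_mul, pow_succ]

theorem FEQ_thm (h1 : UBDStmt) (h2 : ALGStmt) (h3 : ALHStmt) : FEQStmt := by
  intro z hz
  have hne := FEQ_ne h2
  obtain ⟨hu, huh⟩ := h1
  have hb : ∀ (w : V), w ≠ 0 → ∀ k : ℕ, 0 ≤ u (f^[k] w) / 2 ^ (k + 1) ∧
      u (f^[k] w) / 2 ^ (k + 1) ≤ Real.log 2 / 2 / 2 ^ k := by
    intro w hw k
    obtain ⟨h4, h5⟩ := hu _ (hne w hw k)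
    refine ⟨by positivity, ?_⟩
    rw [div_div, ← pow_succ']
    gcongr
  have hs : ∀ (w : V), w ≠ 0 → Summable (fun k : ℕ => u (f^[k] w) / 2 ^ (k + 1)) := by
    intro w hw
    exact Summable.of_nonneg_of_le (fun k => (hb w hw k).1) (fun k => (hb w hw k).2)
      (summable_geometric_two' _)
  refine ⟨?_, ?_, ?_, ?_⟩
  · have h6 := (hs z hz).tsum_eq_zero_add
    unfold S
    rw [h6, ← tsum_div_const]
    congr 1
    · simp
    · refine tsum_congr fun k => ?_
      rw [Function.iterate_succ_apply, pow_succ, div_div]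
  · exact tsum_nonneg fun k => (hb z hz k).1
  · unfold S
    rw [← tsum_geometric_two' (Real.log 2)]
    exact (hs z hz).tsum_le_tsum (fun k => (hb z hz k).2) (summable_geometric_two' _)
  · intro c hc
    unfold S
    refine tsum_congr fun k => ?_
    rw [FEQ_hom h3, huh _ _ (pow_ne_zero _ hc)]

end Pool.CBD
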